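import Mathlib
import Pool.Agent.H.MP_f878ff_nt.B

namespace Pool.Agent.Results.MP_f878ff_nt.Full

open Finset Pool.Agent.H.MP_f878ff_nt

theorem result (a b : ℤ) (β : ℝ) (γ : ℂ) (hβ : 1 < β)
    (h1 : β ^ 3 - a * β ^ 2 - b * β - 1 = 0) (h2 : γ ^ 3 - a * γ ^ 2 - b * γ - 1 = 0)
    (hγ : γ.im ≠ 0) :
    ∃ m : ℕ, ∀ x ∈ Algebra.adjoin ℤ {β}, 0 ≤ x → x < 1 →
      ∃ (k : ℕ) (c : ℕ → ℕ), (∀ j, c j ≤ m) ∧ x = ∑ j ∈ range k, (c j : ℝ) / β ^ (j + 1) := by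
  wlog hn : γ.im < 0 generalizing γ
  · refine this (starRingEnd ℂ γ) ?_ (by simpa using hγ) ?_
    · simpa using congrArg (starRingEnd ℂ) h2
    · simp only [Complex.conj_im]; have := lt_of_le_of_ne (not_lt.1 hn) hγ.symm; linarith
  have r := congrArg Complex.re h2
  have i := congrArg Complex.im h2
  simp [pow_succ] at r i
  have e1 : (b : ℝ) = 3 * γ.re ^ 2 - γ.im ^ 2 - 2 * a * γ.re :=
    mul_right_cancel₀ hγ (by linear_combination -i)
  have e2 : (a - 2 * γ.re) * (γ.re ^ 2 + γ.im ^ 2) = 1 := by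
    rw [e1] at r; linear_combination r
  have e3 : (β - (a - 2 * γ.re)) * ((β - γ.re) ^ 2 + γ.im ^ 2) = 0 := by
    rw [e1] at h1; linear_combination h1 - e2
  have e4 : β = a - 2 * γ.re := by
    have := (mul_eq_zero.1 e3).resolve_right (by positivity); linarith
  have n1 : ‖γ‖ < 1 := by
    have : ‖γ‖ ^ 2 = γ.re ^ 2 + γ.im ^ 2 := by rw [Complex.sq_norm, Complex.normSq_apply]; ring
    rw [← e4, ← this] at e2
    by_contra h
    push Not at h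
    have h3 : 1 ≤ ‖γ‖ ^ 2 := one_le_pow₀ h
    nlinarith
  have g0 : γ ≠ 0 := fun e => hγ (by simp [e])
  have b0 : β ≠ 0 := by positivity
  have hh : ((β⁻¹, γ⁻¹) : ℝ × ℂ) ^ 3 + b * (β⁻¹, γ⁻¹) ^ 2 + a * (β⁻¹, γ⁻¹) - 1 = 0 := by
    ext
    · simp; field_simp; linear_combination -h1
    · simp; field_simp; linear_combination -h2
  have hm : ((β⁻¹, γ⁻¹) : ℝ × ℂ) ∈ Algebra.adjoin ℤ {((β⁻¹, γ⁻¹) : ℝ × ℂ)} :=
    Algebra.subset_adjoin rfl
  obtain ⟨m, hm⟩ := main (β := β) (γ := γ) hβ (mul_inv_cancel₀ b0) n1 (by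
    rw [Complex.inv_im]; exact div_pos (by linarith) (Complex.normSq_pos.2 g0)) hh (by
    rw [show ((β, γ) : ℝ × ℂ) = (β⁻¹, γ⁻¹) ^ 2 + b * (β⁻¹, γ⁻¹) + a by
      ext
      · simp; field_simp; linear_combination h1
      · simp; field_simp; linear_combination h2]
    exact add_mem (add_mem (pow_mem hm _) (mul_mem (intCast_mem _ _) hm)) (intCast_mem _ _))
  refine ⟨m, fun x hx x0 x1 => ?_⟩
  obtain ⟨k, c, hc, e⟩ := hm x hx x0 x1
  exact ⟨k, c, hc, by simpa [div_eq_mul_inv] using e⟩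

end Pool.Agent.Results.MP_f878ff_nt.Full
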